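import Pool.Agent.N139.AS.Stm

/-!
# AS/PST: permutation stability (helper519)
-/

set_option autoImplicit false

namespace Pool.Agent.N519.AS

open Finset Pool.Agent.N139.AS
open Pool.Agent.H698R3.Amalg (PermutationStable)

section ctlem

variable {X : Type} [Fintype X]

theorem ct_mono {P Q : X → Prop} (h : ∀ x, P x → Q x) : ct P ≤ ct Q := by
  classical
  unfold ct
  have : (univ.filter P).card ≤ (univ.filter Q).card := by
    apply Finset.card_le_card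
    intro x hx
    rw [Finset.mem_filter] at hx ⊢
    exact ⟨hx.1, h x hx.2⟩
  convert (Nat.cast_le (α := ℝ)).2 this

theorem ct_nonneg (P : X → Prop) : 0 ≤ ct P := by
  unfold ct
  exact Nat.cast_nonneg _

theorem ct_congr {P Q : X → Prop} (h : ∀ x, P x ↔ Q x) : ct P = ct Q :=
  le_antisymm (ct_mono fun x => (h x).1) (ct_mono fun x => (h x).2)

theorem ct_sum (P : X → Prop) [DecidablePred P] : ct P = ∑ x, if P x then (1 : ℝ) else 0 := by
  unfold ct
  rw [Finset.card_filter]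
  push_cast
  refine Finset.sum_congr rfl fun x _ => ?_
  by_cases h : P x <;> simp [h]

theorem ct_le_card (P : X → Prop) : ct P ≤ Fintype.card X := by
  unfold ct
  exact_mod_cast Finset.card_le_univ _

theorem ct_split (P Q : X → Prop) :
    ct P = ct (fun x => P x ∧ Q x) + ct (fun x => P x ∧ ¬ Q x) := by
  classical
  rw [ct_sum, ct_sum, ct_sum, ← Finset.sum_add_distrib]
  refine Finset.sum_congr rfl fun x _ => ?_
  by_cases h : P x <;> by_cases h' : Q x <;> simp [h, h']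

theorem ct_or (P Q : X → Prop) : ct (fun x => P x ∨ Q x) ≤ ct P + ct Q := by
  classical
  rw [ct_sum, ct_sum, ct_sum, ← Finset.sum_add_distrib]
  refine Finset.sum_le_sum fun x _ => ?_
  by_cases h : P x <;> by_cases h' : Q x <;> simp [h, h']

theorem ct_equiv (e : Equiv.Perm X) (P : X → Prop) : ct (fun x => P (e x)) = ct P := by
  classical
  rw [ct_sum, ct_sum]
  exact Equiv.sum_comp e (fun x => if P x then (1 : ℝ) else 0)

theorem ct_ex {ι : Type} (s : Finset ι) (P : ι → X → Prop) :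
    ct (fun x => ∃ i ∈ s, P i x) ≤ ∑ i ∈ s, ct (P i) := by
  classical
  induction s using Finset.induction_on with
  | empty =>
    rw [Finset.sum_empty]
    have : ct (fun x : X => ∃ i ∈ (∅ : Finset ι), P i x) = 0 := by
      rw [ct_sum]
      apply Finset.sum_eq_zero
      intro x _
      rw [if_neg]
      rintro ⟨i, hi, -⟩
      exact absurd hi (Finset.notMem_empty i)
    rw [this]
  | insert a s ha ih =>
    rw [Finset.sum_insert ha]
    refine le_trans (ct_mono (Q := fun x => P a x ∨ ∃ i ∈ s, P i x) ?_) ?_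
    · rintro x ⟨i, hi, hx⟩
      rw [Finset.mem_insert] at hi
      rcases hi with rfl | hi
      · exact Or.inl hx
      · exact Or.inr ⟨i, hi, hx⟩
    · exact (ct_or _ _).trans (add_le_add le_rfl ih)

theorem exit_pow (t : Equiv.Perm X) (Z : X → Prop) (k : ℕ) :
    ct (fun y => Z y ∧ ¬ Z ((t ^ k) y)) ≤ k * ct (fun y => Z y ∧ ¬ Z (t y)) := by
  induction k with
  | zero =>
    have : ct (fun y => Z y ∧ ¬ Z ((t ^ 0) y)) = ct (fun _ : X => False) := by
      apply ct_congr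
      intro x
      simp
    rw [this]
    have h0 : ct (fun _ : X => False) = 0 := by
      rw [ct_sum]
      simp
    rw [h0]
    simp
  | succ k ih =>
    have h1 : ct (fun y => Z ((t ^ k) y) ∧ ¬ Z (t ((t ^ k) y))) =
        ct (fun y => Z y ∧ ¬ Z (t y)) := ct_equiv (t ^ k) (fun y => Z y ∧ ¬ Z (t y))
    have h2 : ct (fun y => Z y ∧ ¬ Z ((t ^ (k + 1)) y)) ≤
        ct (fun y => Z y ∧ ¬ Z ((t ^ k) y)) + ct (fun y => Z ((t ^ k) y) ∧ ¬ Z (t ((t ^ k) y))) := by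
      refine le_trans (ct_mono ?_) (ct_or _ _)
      rintro y ⟨hy, hy'⟩
      by_cases h : Z ((t ^ k) y)
      · right
        refine ⟨h, ?_⟩
        rw [pow_succ', Equiv.Perm.mul_apply] at hy'
        exact hy'
      · left
        exact ⟨hy, h⟩
    rw [h1] at h2
    rw [Nat.cast_succ]
    linarith

theorem exit_inv (t : Equiv.Perm X) (Z : X → Prop) :
    ct (fun y => Z y ∧ ¬ Z (t⁻¹ y)) = ct (fun y => Z y ∧ ¬ Z (t y)) := by
  have h1 : ct (fun y => Z (t y) ∧ ¬ Z (t⁻¹ (t y))) = ct (fun y => Z y ∧ ¬ Z (t⁻¹ y)) :=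
    ct_equiv t (fun y => Z y ∧ ¬ Z (t⁻¹ y))
  have h2 := ct_split (fun y => Z (t y)) Z
  have h3 := ct_split Z (fun y => Z (t y))
  have h4 : ct (fun y => Z (t y)) = ct Z := ct_equiv t Z
  have h5 : ct (fun y => Z (t y) ∧ Z y) = ct (fun y => Z y ∧ Z (t y)) :=
    ct_congr fun y => and_comm
  have h6 : ct (fun y => Z (t y) ∧ ¬ Z (t⁻¹ (t y))) = ct (fun y => Z (t y) ∧ ¬ Z y) := by
    apply ct_congr
    intro y
    rw [show t⁻¹ (t y) = y from t.symm_apply_apply y]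
  linarith

theorem exit_zpow (t : Equiv.Perm X) (Z : X → Prop) (K : ℕ) (i : ℤ) (hi : |i| ≤ K) :
    ct (fun y => Z y ∧ ¬ Z ((t ^ i) y)) ≤ K * ct (fun y => Z y ∧ ¬ Z (t y)) := by
  have h0 := ct_nonneg (fun y => Z y ∧ ¬ Z (t y))
  have hk : (i.natAbs : ℝ) ≤ K := by
    have h1 := abs_le.1 hi
    have : i.natAbs ≤ K := by omega
    exact_mod_cast this
  rcases Int.natAbs_eq i with h | h
  · rw [h, zpow_natCast]
    refine (exit_pow t Z i.natAbs).trans ?_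
    gcongr
  · rw [h, zpow_neg, zpow_natCast, ← inv_pow]
    refine (exit_pow t⁻¹ Z i.natAbs).trans ?_
    rw [exit_inv]
    gcongr

theorem exit_all (t : Equiv.Perm X) (Z : X → Prop) (K : ℕ) :
    ct (fun y => Z y ∧ ∃ i : ℤ, |i| ≤ K ∧ ¬ Z ((t ^ i) y)) ≤
      (2 * K + 1) * (K * ct (fun y => Z y ∧ ¬ Z (t y))) := by
  have h1 : ct (fun y => Z y ∧ ∃ i : ℤ, |i| ≤ K ∧ ¬ Z ((t ^ i) y)) ≤
      ct (fun y => ∃ i ∈ Finset.Icc (-(K : ℤ)) K, (Z y ∧ ¬ Z ((t ^ i) y))) := by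
    apply ct_mono
    rintro y ⟨hy, i, hi, hi'⟩
    refine ⟨i, ?_, hy, hi'⟩
    rw [Finset.mem_Icc]
    exact abs_le.1 hi
  refine h1.trans ((ct_ex _ _).trans ?_)
  calc ∑ i ∈ Finset.Icc (-(K : ℤ)) K, ct (fun y => Z y ∧ ¬ Z ((t ^ i) y))
      ≤ ∑ i ∈ Finset.Icc (-(K : ℤ)) K, K * ct (fun y => Z y ∧ ¬ Z (t y)) := by
        apply Finset.sum_le_sum
        intro i hi
        rw [Finset.mem_Icc] at hi
        exact exit_zpow t Z K i (abs_le.2 hi)
    _ = (2 * K + 1) * (K * ct (fun y => Z y ∧ ¬ Z (t y))) := by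
        rw [Finset.sum_const, Int.card_Icc, nsmul_eq_mul]
        congr 1
        have : ((K : ℤ) + 1 - -(K : ℤ)).toNat = 2 * K + 1 := by omega
        rw [this]
        push_cast
        ring

theorem pigeon (Y : ℕ → X → Prop) (w1 M : ℕ) (hM : 1 ≤ M) :
    ∃ w, w1 ≤ w ∧ w < w1 + M ∧ ct (Y w) - ct (Y (w + 1)) ≤ (Fintype.card X : ℝ) / M := by
  by_contra hcon
  push Not at hcon
  have h1 : ∑ i ∈ Finset.range M, (ct (Y (w1 + i)) - ct (Y (w1 + i + 1))) =
      ct (Y w1) - ct (Y (w1 + M)) := by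
    have := Finset.sum_range_sub' (fun i => ct (Y (w1 + i))) M
    simpa [add_assoc] using this
  have h2 : ∑ i ∈ Finset.range M, (Fintype.card X : ℝ) / M <
      ∑ i ∈ Finset.range M, (ct (Y (w1 + i)) - ct (Y (w1 + i + 1))) := by
    apply Finset.sum_lt_sum_of_nonempty
    · exact Finset.nonempty_range_iff.2 (by omega)
    · intro i hi
      rw [Finset.mem_range] at hi
      exact hcon (w1 + i) (by omega) (by omega)
  rw [Finset.sum_const, Finset.card_range, nsmul_eq_mul, h1] at h2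
  have hM0 : (0 : ℝ) < M := by exact_mod_cast hM
  rw [mul_div_cancel₀ _ hM0.ne'] at h2
  have h3 := ct_le_card (Y w1)
  have h4 := ct_nonneg (Y (w1 + M))
  linarith

omit [Fintype X] in
theorem combine {G : Type} [Group G] (Y : X → Prop) (ψ1 ψ2 : G →* Equiv.Perm X)
    (h1 : ∀ g x, ¬ Y x → ψ1 g x = x) (h2 : ∀ g x, Y x → ψ2 g x = x) :
    ∃ ψ : G →* Equiv.Perm X, (∀ g x, Y x → ψ g x = ψ1 g x) ∧
      (∀ g x, ¬ Y x → ψ g x = ψ2 g x) := by
  have hd : ∀ g h, Equiv.Perm.Disjoint (ψ1 g) (ψ2 h) := by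
    intro g h x
    by_cases hx : Y x
    · exact Or.inr (h2 h x hx)
    · exact Or.inl (h1 g x hx)
  refine ⟨MonoidHom.mk' (fun g => ψ1 g * ψ2 g) ?_, ?_, ?_⟩
  · intro g h
    have hc := (hd h g).commute
    show ψ1 (g * h) * ψ2 (g * h) = ψ1 g * ψ2 g * (ψ1 h * ψ2 h)
    rw [map_mul, map_mul, mul_assoc, mul_assoc, ← mul_assoc (ψ1 h), hc.eq, mul_assoc]
  · intro g x hx
    show (ψ1 g * ψ2 g) x = ψ1 g x
    rw [Equiv.Perm.mul_apply, h2 g x hx]
  · intro g x hx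
    show (ψ1 g * ψ2 g) x = ψ2 g x
    rw [(hd g g).commute.eq, Equiv.Perm.mul_apply, h1 g x hx]

end ctlem

instance (p : ℕ) [Fact p.Prime] : Countable (NN p) := by
  have : Function.Injective (fun x : NN p => (x.a, x.l)) := by
    intro x y h
    have h1 := (Prod.mk.inj h).1
    have h2 := (Prod.mk.inj h).2
    exact NN.ext h1 h2
  exact this.countable

section act

variable {N : Type} [Group N] {S : WD N} {R : ℕ} {X : Type} {α : N → Equiv.Perm X}
  {t : Equiv.Perm X}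

theorem act_one (h : Act S R α t) : α 1 = 1 := by
  have := h.mul 1 (one_mem _) 1 (one_mem _)
  rw [mul_one] at this
  exact (mul_eq_left.1 this.symm)

theorem act_mul (hO : S.Ok) (h : Act S R α t) {w : ℕ} (hw : w ≤ R) {n k : N}
    (hn : n ∈ S.W (-w) w) (hk : k ∈ S.W (-w) w) (x : X) : α (n * k) x = α n (α k x) := by
  have hle : S.W (-w) w ≤ S.W (-R) R := hO.mono _ _ _ _ (by omega) (by omega)
  rw [h.mul n (hle hn) k (hle hk), Equiv.Perm.mul_apply]

theorem act_inv (hO : S.Ok) (h : Act S R α t) {w : ℕ} (hw : w ≤ R) {n : N}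
    (hn : n ∈ S.W (-w) w) (x : X) : α n⁻¹ (α n x) = x := by
  rw [← act_mul hO h hw (inv_mem hn) hn, inv_mul_cancel, act_one h, Equiv.Perm.one_apply]

/-- the points fixed by the kernel of the folding map in the window `w` -/
def YY (S : WD N) (α : N → Equiv.Perm X) (q w : ℕ) (x : X) : Prop :=
  ∀ n ∈ S.W (-w) w, S.f q n = 1 → α n x = x

theorem YY_anti (hO : S.Ok) {q w w' : ℕ} (hw : w ≤ w') {x : X} (h : YY S α q w' x) :
    YY S α q w x := by
  intro n hn hf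
  exact h n (hO.mono _ _ _ _ (by omega) (by omega) hn) hf

theorem YY_inv (hO : S.Ok) (h : Act S R α t) {q w : ℕ} (hw : w ≤ R) {n : N}
    (hn : n ∈ S.W (-w) w) {x : X} (hx : YY S α q w x) : YY S α q w (α n x) := by
  intro k hk hf
  have h1 : n⁻¹ * k * n ∈ S.W (-w) w := mul_mem (mul_mem (inv_mem hn) hk) hn
  have h2 : S.f q (n⁻¹ * k * n) = 1 := by
    rw [map_mul, map_mul, hf, mul_one, map_inv, inv_mul_cancel]
  have h3 := hx _ h1 h2
  rw [← act_mul hO h hw hk hn]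
  have h4 : k * n = n * (n⁻¹ * k * n) := by group
  rw [h4, act_mul hO h hw hn h1, h3]

theorem YY_not_inv (hO : S.Ok) (h : Act S R α t) {q w : ℕ} (hw : w ≤ R) {n : N}
    (hn : n ∈ S.W (-w) w) {x : X} (hx : ¬ YY S α q w x) : ¬ YY S α q w (α n x) := by
  intro h1
  apply hx
  have h2 := YY_inv hO h hw (inv_mem hn) h1
  rwa [act_inv hO h hw hn] at h2

theorem YY_t (hO : S.Ok) (h : Act S R α t) {q w : ℕ} (hq : 0 < q) (hw : w + 1 ≤ R) {x : X}
    (hx : YY S α q (w + 1) x) : YY S α q w (t x) := by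
  intro n hn hf
  obtain ⟨n', rfl⟩ : ∃ n', S.σ n' = n := ⟨S.σ.symm n, S.σ.apply_symm_apply n⟩
  have h1 : n' ∈ S.W (-(w : ℤ) - 1) ((w : ℤ) - 1) := by
    rw [← hO.shift, sub_add_cancel, sub_add_cancel]
    exact hn
  have h2 : n' ∈ S.W (-((w + 1 : ℕ) : ℤ)) ((w + 1 : ℕ) : ℤ) :=
    hO.mono _ _ _ _ (by push_cast; omega) (by push_cast; omega) h1
  have h3 : n' ∈ S.W (-R) (R - 1) := hO.mono _ _ _ _ (by omega) (by omega) h1
  have h4 := h.rel n' h3
  have h5 := hx n' h2 ((hO.f_ker q n' hq).1 hf)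
  have h6 := congrArg (fun e : Equiv.Perm X => e x) h4
  simp only [Equiv.Perm.mul_apply] at h6
  rw [← h6, h5]

end act

/-- orbits of a window -/
def rel {N : Type} [Group N] (S : WD N) {R : ℕ} {X : Type} {α : N → Equiv.Perm X}
    {t : Equiv.Perm X} (hO : S.Ok) (h : Act S R α t) {w : ℕ} (hw : w ≤ R) : Setoid X where
  r x y := ∃ n ∈ S.W (-w) w, y = α n x
  iseqv := {
    refl := fun x => ⟨1, one_mem _, by rw [act_one h, Equiv.Perm.one_apply]⟩
    symm := by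
      rintro x y ⟨n, hn, rfl⟩
      exact ⟨n⁻¹, inv_mem hn, (act_inv hO h hw hn x).symm⟩
    trans := by
      rintro x y z ⟨n, hn, rfl⟩ ⟨k, hk, rfl⟩
      exact ⟨k * n, mul_mem hk hn, (act_mul hO h hw hk hn x).symm⟩ }

/-- the marks -/
theorem marks (hM : S_MARK) {N : Type} [Group N] (S : WD N) {R : ℕ} {X : Type} [Fintype X]
    {α : N → Equiv.Perm X} {t : Equiv.Perm X} (hO : S.Ok) (h : Act S R α t) (K l : ℕ)
    (hl : 0 < l) (hw : 2 * K ≤ R) :
    ∃ B : X → Prop, (∀ n ∈ S.W (-(2 * K : ℕ)) (2 * K : ℕ), ∀ x, B x → B (α n x)) ∧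
      ct B ≤ 2 / l * Fintype.card X ∧
      ∀ Z : X → Prop,
      ct (fun y => Z y ∧ ((∀ i : ℕ, i ≤ K → ¬ B ((t⁻¹ ^ i) y)) ∨
        (∀ i : ℕ, 1 ≤ i → i ≤ K → ¬ B ((t ^ i) y)))) ≤
        4 * (1 - 1 / (l : ℝ)) ^ K * Fintype.card X +
          ct (fun y => Z y ∧ ∃ i : ℤ, |i| ≤ K ∧ ∃ j : ℕ, 0 < j ∧ j ≤ 2 * K ∧
            ∃ n ∈ S.W (-(2 * K : ℕ)) (2 * K : ℕ), (t ^ j) ((t ^ i) y) = α n ((t ^ i) y)) := by
  classical
  let s : Setoid X := rel S hO h hw
  obtain ⟨B0, hB1, hB2⟩ := hM X (Quotient s) (fun _ => 1) (fun _ => zero_le_one) K l hl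
    (fun i y => Quotient.mk s ((t ^ i) y))
  refine ⟨fun x => B0 (Quotient.mk s x), ?_, ?_, ?_⟩
  · intro n hn x hx
    have h1 : Quotient.mk s (α n x) = Quotient.mk s x := by
      apply Quotient.sound
      exact ⟨n⁻¹, inv_mem hn, (act_inv hO h hw hn x).symm⟩
    rw [h1]
    exact hx
  · rw [ct_sum]
    have h1 : ∑ _y : X, (1 : ℝ) = Fintype.card X := by simp
    rw [h1] at hB1
    refine le_trans (le_of_eq ?_) hB1
    refine Finset.sum_congr rfl fun x _ => ?_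
    by_cases hx : B0 (Quotient.mk s x) <;> simp [hx]
  · intro Z
    have h1 : ∑ _y : X, (1 : ℝ) = Fintype.card X := by simp
    rw [h1] at hB2
    have h2 : ct (fun y => (∀ i j : ℤ, |i| ≤ K → |j| ≤ K →
        Quotient.mk s ((t ^ i) y) = Quotient.mk s ((t ^ j) y) → i = j) ∧
          ((∀ i : ℕ, i ≤ K → ¬ B0 (Quotient.mk s ((t ^ (-(i : ℤ))) y))) ∨
            (∀ i : ℕ, 1 ≤ i → i ≤ K → ¬ B0 (Quotient.mk s ((t ^ (i : ℤ)) y))))) ≤
        4 * (1 - 1 / (l : ℝ)) ^ K * Fintype.card X := by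
      rw [ct_sum]
      refine le_trans (le_of_eq ?_) hB2
      refine Finset.sum_congr rfl fun x _ => ?_
      congr
    refine le_trans ?_ (add_le_add h2 le_rfl)
    refine le_trans (ct_mono ?_) (ct_or _ _)
    rintro y ⟨hy, hy'⟩
    by_cases hout : ∀ i j : ℤ, |i| ≤ K → |j| ≤ K →
        Quotient.mk s ((t ^ i) y) = Quotient.mk s ((t ^ j) y) → i = j
    · left
      refine ⟨hout, ?_⟩
      rcases hy' with h3 | h3
      · left
        intro i hi
        have := h3 i hi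
        rw [zpow_neg, zpow_natCast, ← inv_pow]
        exact this
      · right
        intro i hi hi'
        have := h3 i hi hi'
        rw [zpow_natCast]
        exact this
    · right
      refine ⟨hy, ?_⟩
      have key : ∀ i j : ℤ, |i| ≤ K → |j| ≤ K → i < j →
          Quotient.mk s ((t ^ i) y) = Quotient.mk s ((t ^ j) y) →
          ∃ i : ℤ, |i| ≤ K ∧ ∃ j : ℕ, 0 < j ∧ j ≤ 2 * K ∧
            ∃ n ∈ S.W (-(2 * K : ℕ)) (2 * K : ℕ), (t ^ j) ((t ^ i) y) = α n ((t ^ i) y) := by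
        intro i j hi hj hij he
        obtain ⟨n, hn, hn'⟩ := Quotient.exact he
        refine ⟨i, hi, (j - i).toNat, ?_, ?_, n, hn, ?_⟩
        · omega
        · rw [abs_le] at hi hj
          omega
        · rw [← hn', ← zpow_natCast, Int.toNat_of_nonneg (by omega), ← Equiv.Perm.mul_apply,
            ← zpow_add]
          congr 2
          ring
      push Not at hout
      obtain ⟨i, j, hi, hj, he, hne⟩ := hout
      rcases lt_or_gt_of_ne hne with hlt | hlt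
      · exact key i j hi hj hlt he
      · exact key j i hj hi hlt he.symm

theorem t_PST (hO : S_OK) (hR : S_REDP) (hS : S_SKYP) (hF : S_FINP) (hM : S_MARK)
    (hC : S_CLP) : S_PST := by
  classical
  intro p _ hp2
  have hOk : (SS p).Ok := hO p
  refine hR (NN p) (SS p) hOk ?_
  intro m ε hε
  -- parameters
  obtain ⟨l, hl⟩ := exists_nat_ge (24 * (2 * m + 3) / ε + 1)
  have hl1 : (1 : ℝ) ≤ l := by
    have : 0 ≤ 24 * (2 * (m : ℝ) + 3) / ε := by positivity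
    linarith
  have hl0 : 0 < l := by
    have : (0 : ℝ) < l := by linarith
    exact_mod_cast this
  have hlr : (0 : ℝ) < l := by linarith
  have hlb : (2 * (m : ℝ) + 3) * (2 / l) ≤ ε / 12 := by
    have h1 : 24 * (2 * (m : ℝ) + 3) / ε ≤ l := by linarith
    rw [div_le_iff₀ hε] at h1
    rw [← mul_div_assoc, div_le_iff₀ hlr]
    linarith
  obtain ⟨K, hK⟩ : ∃ K : ℕ, (1 - 1 / (l : ℝ)) ^ K < ε / 96 := by
    apply exists_pow_lt_of_lt_one (by positivity)
    have : 0 < 1 / (l : ℝ) := by positivity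
    linarith
  set ε1 : ℝ := ε / (24 * (2 * K + 1)) with hε1
  have hε10 : 0 < ε1 := by positivity
  obtain ⟨q, hq0, hq⟩ := hC p hp2 (2 * K) ε1 hε10
  obtain ⟨w0, η, hη, hFin⟩ := hF (NN p) (SS p) hOk q m (ε / 4) hq0 (by positivity)
  obtain ⟨M, hM1⟩ := exists_nat_ge (1 / η + 24 * (2 * K + 1) * K / ε + 1)
  have hMr : (1 : ℝ) ≤ M := by
    have h1 : 0 ≤ 1 / η := by positivity
    have h2 : 0 ≤ 24 * (2 * (K : ℝ) + 1) * K / ε := by positivity
    linarith
  have hM0 : 1 ≤ M := by exact_mod_cast hMr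
  have hMpos : (0 : ℝ) < M := by linarith
  have hMη : 1 / (M : ℝ) ≤ η := by
    have h2 : 0 ≤ 24 * (2 * (K : ℝ) + 1) * K / ε := by positivity
    have h1 : 1 / η ≤ M := by linarith
    rw [div_le_iff₀ hη] at h1
    rw [div_le_iff₀ hMpos]
    linarith
  have hMK : (2 * (K : ℝ) + 1) * (K * (1 / M)) ≤ ε / 24 := by
    have h1 : 0 ≤ 1 / η := by positivity
    have h2 : 24 * (2 * (K : ℝ) + 1) * K / ε ≤ M := by linarith
    rw [div_le_iff₀ hε] at h2
    have h3 : (2 * (K : ℝ) + 1) * (K * (1 / M)) = (2 * (K : ℝ) + 1) * K / M := by ring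
    rw [h3, div_le_iff₀ hMpos]
    linarith
  set w1 : ℕ := max w0 (2 * K + 1) with hw1
  choose R0 hR0 using hq
  set R : ℕ := (∑ w ∈ Finset.range (w1 + M), R0 w) + w1 + M + 2 * K + m + 5 with hRdef
  refine ⟨R, by omega, ?_⟩
  intro X _ α t hact
  obtain ⟨w, hw1w, hwM, hpig⟩ := pigeon (fun w => YY (SS p) α q w) w1 M hM0
  have hw0w : w0 ≤ w := le_trans (le_max_left _ _) hw1w
  have hKw : 2 * K + 1 ≤ w := le_trans (le_max_right _ _) hw1w
  have hwR : w + 1 ≤ R := by omega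
  have hwR' : w ≤ R := by omega
  have hR0w : R0 w ≤ R := by
    have : R0 w ≤ ∑ w ∈ Finset.range (w1 + M), R0 w :=
      Finset.single_le_sum (f := R0) (fun _ _ => Nat.zero_le _) (Finset.mem_range.2 hwM)
    omega
  set Y : X → Prop := YY (SS p) α q w with hY
  set Z : X → Prop := fun x => ¬ Y x with hZ
  set c : ℝ := (Fintype.card X : ℝ) with hc
  have hc0 : 0 ≤ c := Nat.cast_nonneg _
  -- exits
  have hexY : ct (fun x => Y x ∧ ¬ Y (t x)) ≤ c / M := by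
    have h1 : ct (fun x => Y x ∧ ¬ Y (t x)) ≤ ct (fun x => Y x ∧ ¬ YY (SS p) α q (w + 1) x) := by
      apply ct_mono
      rintro x ⟨hx, hx'⟩
      exact ⟨hx, fun h2 => hx' (YY_t hOk hact hq0 hwR h2)⟩
    have h2 := ct_split Y (YY (SS p) α q (w + 1))
    have h3 : ct (YY (SS p) α q (w + 1)) ≤ ct (fun x => Y x ∧ YY (SS p) α q (w + 1) x) := by
      apply ct_mono
      intro x hx
      exact ⟨YY_anti hOk (Nat.le_succ w) hx, hx⟩
    linarith
  have hexY' : ct (fun x => Y x ∧ ¬ Y (t x)) ≤ η * c := by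
    refine hexY.trans ?_
    rw [div_eq_mul_one_div, mul_comm]
    exact mul_le_mul_of_nonneg_right hMη hc0
  have hexZ : ct (fun x => Z x ∧ ¬ Z (t x)) ≤ c / M := by
    refine le_trans (le_of_eq ?_) hexY
    have h1 := exit_inv t Y
    have h2 : ct (fun y => Y (t y) ∧ ¬ Y (t⁻¹ (t y))) = ct (fun y => Y y ∧ ¬ Y (t⁻¹ y)) :=
      ct_equiv t (fun y => Y y ∧ ¬ Y (t⁻¹ y))
    rw [← h1, ← h2]
    apply ct_congr
    intro x
    rw [show t⁻¹ (t x) = x from t.symm_apply_apply x]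
    show (¬ Y x ∧ ¬ ¬ Y (t x)) ↔ _
    rw [not_not]
    exact and_comm
  have hEZ : ct (fun y => Z y ∧ ∃ i : ℤ, |i| ≤ K ∧ ¬ Z ((t ^ i) y)) ≤ ε / 24 * c := by
    refine (exit_all t Z K).trans ?_
    calc (2 * (K : ℝ) + 1) * (K * ct (fun y => Z y ∧ ¬ Z (t y)))
        ≤ (2 * (K : ℝ) + 1) * (K * (c / M)) := by gcongr
      _ = ((2 * (K : ℝ) + 1) * (K * (1 / M))) * c := by ring
      _ ≤ ε / 24 * c := mul_le_mul_of_nonneg_right hMK hc0
  -- the finite part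
  obtain ⟨ψ1, hψ1, hψ1'⟩ := hFin w hw0w R hwR' X α t hact Y
    (fun n hn x hx => YY_inv hOk hact hwR' hn hx) (fun n hn hf x hx => hx n hn hf) hexY'
  -- the marks
  obtain ⟨B, hB1, hB2, hB3⟩ := marks hM (SS p) hOk hact K l hl0 (by omega)
  obtain ⟨ψ2, hψ2, hψ2'⟩ := hS (NN p) (SS p) hOk m K R (by omega) X α t hact B Z (by
    intro n hn x
    refine ⟨hB1 n hn x, ?_⟩
    have hn' : n ∈ (SS p).W (-w) w := hOk.mono _ _ _ _ (by omega) (by omega) hn
    exact fun hx => YY_not_inv hOk hact hwR' hn' hx)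
  -- the periodic points
  have hper : ct (fun y => Z y ∧ ∃ i : ℤ, |i| ≤ K ∧ ∃ j : ℕ, 0 < j ∧ j ≤ 2 * K ∧
      ∃ n ∈ (SS p).W (-(2 * K : ℕ)) (2 * K : ℕ), (t ^ j) ((t ^ i) y) = α n ((t ^ i) y)) ≤
      ε / 12 * c := by
    set Pb : X → Prop := fun x => (∃ (j : ℕ) (n : NN p), 0 < j ∧ j ≤ 2 * K ∧
      n ∈ WN p (-(2 * K : ℕ)) (2 * K : ℕ) ∧ (t ^ j) x = α n x) ∧
        ∃ n' ∈ WN p (-w) w, fN p q n' = 1 ∧ α n' x ≠ x with hPb
    have h1 : ct Pb ≤ ε1 * c := hR0 w R hR0w X α t hact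
    have h2 : ct (fun y => Z y ∧ ∃ i : ℤ, |i| ≤ K ∧ ∃ j : ℕ, 0 < j ∧ j ≤ 2 * K ∧
        ∃ n ∈ (SS p).W (-(2 * K : ℕ)) (2 * K : ℕ), (t ^ j) ((t ^ i) y) = α n ((t ^ i) y)) ≤
        ct (fun y => ∃ i ∈ Finset.Icc (-(K : ℤ)) K, Pb ((t ^ i) y)) +
          ct (fun y => Z y ∧ ∃ i : ℤ, |i| ≤ K ∧ ¬ Z ((t ^ i) y)) := by
      refine le_trans (ct_mono ?_) (ct_or _ _)
      rintro y ⟨hy, i, hi, j, hj0, hj, n, hn, he⟩
      by_cases hz : Z ((t ^ i) y)
      · left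
        refine ⟨i, Finset.mem_Icc.2 (abs_le.1 hi), ⟨j, n, hj0, hj, hn, he⟩, ?_⟩
        have hz' : ¬ ∀ n ∈ (SS p).W (-w) w, (SS p).f q n = 1 →
          α n ((t ^ i) y) = (t ^ i) y := hz
        push Not at hz'
        obtain ⟨n', hn', hf, hne⟩ := hz'
        exact ⟨n', hn', hf, hne⟩
      · right
        exact ⟨hy, i, hi, hz⟩
    have h3 : ct (fun y => ∃ i ∈ Finset.Icc (-(K : ℤ)) K, Pb ((t ^ i) y)) ≤ ε / 24 * c := by
      refine (ct_ex _ _).trans ?_
      calc ∑ i ∈ Finset.Icc (-(K : ℤ)) K, ct (fun y => Pb ((t ^ i) y))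
          ≤ ∑ i ∈ Finset.Icc (-(K : ℤ)) K, ε1 * c := by
            apply Finset.sum_le_sum
            intro i _
            rw [ct_equiv (t ^ i) Pb]
            exact h1
        _ = ε / 24 * c := by
            rw [Finset.sum_const, Int.card_Icc, nsmul_eq_mul]
            have : ((K : ℤ) + 1 - -(K : ℤ)).toNat = 2 * K + 1 := by omega
            rw [this, hε1]
            push_cast
            have hK1 : (2 * (K : ℝ) + 1) ≠ 0 := by positivity
            field_simp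
    linarith
  have hmk := hB3 Z
  have hmk' : ct (fun y => Z y ∧ ((∀ i : ℕ, i ≤ K → ¬ B ((t⁻¹ ^ i) y)) ∨
        (∀ i : ℕ, 1 ≤ i → i ≤ K → ¬ B ((t ^ i) y)))) ≤ ε / 8 * c := by
    refine hmk.trans ?_
    have h1 : 4 * (1 - 1 / (l : ℝ)) ^ K * c ≤ ε / 24 * c := by
      apply mul_le_mul_of_nonneg_right _ hc0
      linarith
    linarith
  have hmkb : ct (fun y => Z y ∧ ∀ i : ℕ, i ≤ K → ¬ B ((t⁻¹ ^ i) y)) ≤ ε / 8 * c :=
    le_trans (ct_mono fun y hy => ⟨hy.1, Or.inl hy.2⟩) hmk'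
  have hmkf : ct (fun y => Z y ∧ ∀ i : ℕ, 1 ≤ i → i ≤ K → ¬ B ((t ^ i) y)) ≤ ε / 8 * c :=
    le_trans (ct_mono fun y hy => ⟨hy.1, Or.inr hy.2⟩) hmk'
  have hBc : (2 * (m : ℝ) + 3) * ct B ≤ ε / 12 * c := by
    calc (2 * (m : ℝ) + 3) * ct B ≤ (2 * (m : ℝ) + 3) * (2 / l * c) := by gcongr
      _ = ((2 * (m : ℝ) + 3) * (2 / l)) * c := by ring
      _ ≤ ε / 12 * c := mul_le_mul_of_nonneg_right hlb hc0
  obtain ⟨ψ, hψa, hψb⟩ := combine Y ψ1 ψ2 hψ1 (fun g x hx => hψ2 g x (not_not.2 hx))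
  refine ⟨ψ, ?_⟩
  have h1 : ct (fun x => ψ (tt (SS p)) x ≠ t x ∨
      ∃ n ∈ (SS p).W (-m) m, ψ (inn (SS p) n) x ≠ α n x) ≤
      ct (fun x => Y x ∧ (ψ1 (tt (SS p)) x ≠ t x ∨
        ∃ n ∈ (SS p).W (-m) m, ψ1 (inn (SS p) n) x ≠ α n x)) +
      ct (fun x => Z x ∧ (ψ2 (tt (SS p)) x ≠ t x ∨
        ∃ n ∈ (SS p).W (-m) m, ψ2 (inn (SS p) n) x ≠ α n x)) := by
    refine le_trans (ct_mono ?_) (ct_or _ _)
    intro x hx
    by_cases hYx : Y x
    · left
      refine ⟨hYx, ?_⟩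
      rcases hx with hx | ⟨n, hn, hx⟩
      · left
        rwa [hψa _ _ hYx] at hx
      · right
        refine ⟨n, hn, ?_⟩
        rwa [hψa _ _ hYx] at hx
    · right
      refine ⟨hYx, ?_⟩
      rcases hx with hx | ⟨n, hn, hx⟩
      · left
        rwa [hψb _ _ hYx] at hx
      · right
        refine ⟨n, hn, ?_⟩
        rwa [hψb _ _ hYx] at hx
  have hεc : 0 ≤ ε * c := by positivity
  linarith

end Pool.Agent.N519.AS
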